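import Pool.Agent.Helper27_BHT.Stmts

open Polynomial NumberField

namespace BHT

/-- `x^(2m) + r` is not a square -/
theorem bnd_not_square {Ω : Type*} [Field Ω] [CharZero Ω] {m : ℕ} {r : Polynomial Ω}
    (hr : r ≠ 0) (hrd : r.natDegree < m) (h : Polynomial Ω) : h ^ 2 ≠ X ^ (2 * m) + r := by
  intro he
  have h1 : (h - X ^ m) * (h + X ^ m) = r := by
    have : (X : Polynomial Ω) ^ (2 * m) = (X ^ m) ^ 2 := by rw [← pow_mul, mul_comm]
    rw [this] at he
    linear_combination he
  have hA : h - X ^ m ≠ 0 := by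
    intro h0; rw [h0, zero_mul] at h1; exact hr h1.symm
  have hB : h + X ^ m ≠ 0 := by
    intro h0; rw [h0, mul_zero] at h1; exact hr h1.symm
  have h2 : (h - X ^ m).natDegree + (h + X ^ m).natDegree < m := by
    rw [← natDegree_mul hA hB, h1]; exact hrd
  have h3 : (h + X ^ m) - (h - X ^ m) = C 2 * X ^ m := by
    rw [C_ofNat]
    ring
  have h4 : (C (2 : Ω) * X ^ m).natDegree = m := natDegree_C_mul_X_pow _ _ two_ne_zero
  have h5 := natDegree_sub_le (h + X ^ m) (h - X ^ m)
  rw [h3, h4] at h5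
  rcases le_max_iff.mp h5 with h6 | h6 <;> omega

/-- the polynomial with given coefficients -/
noncomputable def polyOf {Ω : Type*} [Field Ω] {m : ℕ} (s : Fin m → Ω) : Polynomial Ω :=
  ∑ j : Fin m, C (s j) * X ^ (j : ℕ)

theorem polyOf_coeff {Ω : Type*} [Field Ω] {m : ℕ} (s : Fin m → Ω) (j : ℕ) (hj : j < m) :
    (polyOf s).coeff j = s ⟨j, hj⟩ := by
  rw [polyOf, finset_sum_coeff, Finset.sum_eq_single ⟨j, hj⟩]
  · rw [coeff_C_mul_X_pow, if_pos rfl]
  · intro b _ hb
    rw [coeff_C_mul_X_pow, if_neg]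
    intro h
    exact hb (Fin.ext h.symm)
  · intro h; exact absurd (Finset.mem_univ _) h

theorem polyOf_natDegree {Ω : Type*} [Field Ω] {m : ℕ} (hm : 0 < m) (s : Fin m → Ω) :
    (polyOf s).natDegree < m := by
  have : (polyOf s).degree < m := degree_sum_fin_lt s
  rcases eq_or_ne (polyOf s) 0 with h0 | h0
  · rw [h0, natDegree_zero]; exact hm
  · exact (natDegree_lt_iff_degree_lt h0).mpr this

theorem pell_map {K Ω : Type*} [Field K] [Field Ω] (φ : K →+* Ω) {f : K[X]} {N : ℕ}
    (h : Pell f N) : Pell (f.map φ) N := by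
  obtain ⟨u, w, c, hc, hw, he, hu⟩ := h
  refine ⟨u.map φ, w.map φ, φ c, (_root_.map_ne_zero φ).mpr hc,
    (Polynomial.map_ne_zero_iff φ.injective).mpr hw, ?_, by rw [natDegree_map, hu]⟩
  have := congrArg (Polynomial.map φ) he
  simpa using this

/-- the algebraic closure of the rationals -/
abbrev QB : Type := AlgebraicClosure ℚ

theorem bnd (t2 : T2Stmt) (ncs : NCSStmt) (gal : GalStmt) (scl : SclStmt) : BndStmt := by
  classical
  intro m d hm
  obtain ⟨B0, hB0⟩ := t2 m hm
  set M := (2 * m).factorial with hM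
  obtain ⟨F, hF⟩ := ncs (Fin m) d ((max |B0| 1) ^ d)
  have hdiv : ∀ j : ℕ, j < m → (2 * m - j) * (M / (2 * m - j)) = M := by
    intro j hj
    exact Nat.mul_div_cancel' (Nat.dvd_factorial (by omega) (by omega))
  have hMpos : 0 < M := Nat.factorial_pos _
  have hepos : ∀ j : ℕ, j < m → 0 < M / (2 * m - j) := by
    intro j hj
    rcases Nat.eq_zero_or_pos (M / (2 * m - j)) with h | h
    · have := hdiv j hj
      rw [h, mul_zero] at this
      omega
    · exact h
  -- the finite set of coefficient vectors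
  have hfin : ∀ y : Fin m → QB, {s : Fin m → QB | ∀ j : Fin m, s j ^ (M / (2 * m - j)) = y j}.Finite := by
    intro y
    have h1 : ∀ j : Fin m, {c : QB | c ^ (M / (2 * m - j)) = y j}.Finite := by
      intro j
      refine Set.Finite.subset (nthRoots (M / (2 * m - j)) (y j)).toFinset.finite_toSet ?_
      intro c hc
      simp only [Finset.mem_coe, Multiset.mem_toFinset]
      exact (mem_nthRoots (hepos j j.2)).mpr hc
    exact Set.Finite.pi' h1
  have hfin2 : (⋃ y ∈ F, {s : Fin m → QB | ∀ j : Fin m, s j ^ (M / (2 * m - j)) = y j}).Finite :=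
    Set.Finite.biUnion F.finite_toSet (fun y _ => hfin y)
  set S := hfin2.toFinset with hS
  set Nf : (Fin m → QB) → ℕ := fun s =>
    if h : ∃ N, Pell (X ^ (2 * m) + polyOf s) N then Nat.find h else 0 with hNf
  refine ⟨S.sup Nf, ?_⟩
  intro K _ _ hK r hr hrd hN
  obtain ⟨φ⟩ : Nonempty (K →+* QB) := by
    haveI : Algebra.IsAlgebraic ℚ K := inferInstance
    exact ⟨(IsAlgClosed.lift (M := QB) (R := ℚ) (S := K)).toRingHom⟩
  set x : Fin m → K := fun j => r.coeff j ^ (M / (2 * m - j)) with hx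
  have hx0 : x ≠ 0 := by
    intro h0
    apply hr
    ext j
    rcases lt_or_ge j m with hj | hj
    · have := congrFun h0 ⟨j, hj⟩
      simp only [hx, Pi.zero_apply] at this
      rw [coeff_zero]
      exact pow_eq_zero_iff (hepos j hj).ne' |>.mp this
    · rw [coeff_zero]; exact coeff_eq_zero_of_natDegree_lt (lt_of_lt_of_le hrd hj)
  have hht : Height.mulHeight x ≤ (max |B0| 1) ^ d := by
    have h1 := hB0 K r hr hrd hN
    have h2 : B0 ^ (Module.finrank ℚ K) ≤ (max |B0| 1) ^ (Module.finrank ℚ K) := by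
      refine le_trans (le_abs_self _) ?_
      rw [abs_pow]
      exact pow_le_pow_left₀ (abs_nonneg _) (le_max_left _ _) _
    have h3 : (max |B0| 1) ^ (Module.finrank ℚ K) ≤ (max |B0| 1) ^ d :=
      pow_le_pow_right₀ (le_max_right _ _) hK
    exact le_trans h1 (le_trans h2 h3)
  obtain ⟨y, hyF, μ, hμ, hy⟩ := hF K hK x hx0 hht φ
  obtain ⟨t, ht⟩ := IsAlgClosed.exists_pow_nat_eq (μ⁻¹) hMpos
  have ht0 : t ≠ 0 := by
    rintro rfl
    rw [zero_pow hMpos.ne'] at ht
    exact inv_ne_zero hμ ht.symm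
  set s : Fin m → QB := fun j => t ^ (2 * m - j) * φ (r.coeff j) with hs
  have hsS : s ∈ S := by
    rw [hS, Set.Finite.mem_toFinset, Set.mem_iUnion₂]
    refine ⟨y, hyF, ?_⟩
    intro j
    simp only [hs]
    rw [mul_pow, ← pow_mul, hdiv j j.2, ht, ← map_pow]
    have := hy j
    simp only [hx] at this
    rw [this, ← mul_assoc, inv_mul_cancel₀ hμ, one_mul]
  have hm0 : 0 < m := by omega
  have hmapr : (X ^ (2 * m) + r : K[X]).map φ = X ^ (2 * m) + r.map φ := by simp
  have hscoef : ∀ j < m, (polyOf s).coeff j = t ^ (2 * m - j) * (r.map φ).coeff j := by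
    intro j hj
    rw [polyOf_coeff s j hj, coeff_map]
  have hrmd : (r.map φ).natDegree < m := by rw [natDegree_map]; exact hrd
  have hpe : ∃ N, Pell (X ^ (2 * m) + polyOf s) N := by
    obtain ⟨N, hN⟩ := hN
    refine ⟨N, scl QB m N (r.map φ) (polyOf s) t ht0 hrmd (polyOf_natDegree hm0 s) hscoef ?_⟩
    rw [← hmapr]
    exact pell_map φ hN
  have hNfs : Nf s = Nat.find hpe := by simp only [hNf]; rw [dif_pos hpe]
  refine ⟨Nf s, Finset.le_sup hsS, ?_⟩
  have h1 : Pell (X ^ (2 * m) + polyOf s) (Nf s) := by rw [hNfs]; exact Nat.find_spec hpe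
  have h2 : Pell (X ^ (2 * m) + r.map φ) (Nf s) := by
    refine scl QB m (Nf s) (polyOf s) (r.map φ) t⁻¹ (inv_ne_zero ht0) (polyOf_natDegree hm0 s) hrmd
      ?_ h1
    intro j hj
    rw [hscoef j hj, ← mul_assoc, ← mul_pow, inv_mul_cancel₀ ht0, one_pow, one_mul]
  have hrdlt : r.degree < ((2 * m : ℕ) : WithBot ℕ) := by
    refine lt_of_le_of_lt degree_le_natDegree ?_
    exact_mod_cast (by omega : r.natDegree < 2 * m)
  have hmon : (X ^ (2 * m) + r).Monic := monic_X_pow_add hrdlt
  refine gal K QB φ m (Nf s) (X ^ (2 * m) + r) hmon ?_ (by omega) ?_ ?_ (by rw [hmapr]; exact h2)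
  · rw [natDegree_add_eq_left_of_natDegree_lt] <;> rw [natDegree_X_pow]
    omega
  · intro h
    rw [hmapr]
    exact bnd_not_square ((Polynomial.map_ne_zero_iff φ.injective).mpr hr) hrmd h
  · intro z
    letI := φ.toAlgebra
    haveI : IsScalarTower ℚ K QB := by
      refine IsScalarTower.of_algebraMap_eq' ?_
      exact Subsingleton.elim _ _
    have h3 := (AlgebraicClosure.isAlgebraic ℚ).isAlgebraic z
    have h4 : IsAlgebraic ℚ z := by
      obtain ⟨p, hp, hpz⟩ := h3
      refine ⟨p, hp, ?_⟩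
      rw [aeval_def] at hpz ⊢
      convert! hpz
    exact h4.tower_top K

end BHT
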