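import Pool.Agent.Helper27_BHT.Stmts

open Polynomial

namespace BHT

theorem a2_norm_eval (T : ℂ[X]) (x : ℂ) :
    ‖T.eval x‖ = ‖T.leadingCoeff‖ * (T.roots.map (fun t => ‖x - t‖)).prod := by
  have hs : T.Splits := IsAlgClosed.splits T
  have h := hs.eval_eq_prod_roots x
  rw [h, norm_mul]
  congr 1
  generalize T.roots = s
  induction s using Multiset.induction_on with
  | empty => simp
  | cons a s ih => simp [ih]

theorem a2 : A2Stmt := by
  intro T ζ a b ha hab h
  have hN : (T.roots).card = T.natDegree := by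
    have hs : T.Splits := IsAlgClosed.splits T
    exact hs.natDegree_eq_card_roots.symm
  set P : ℝ[X] := C ‖T.leadingCoeff‖ * (T.roots.map (fun t => X - C ‖t - ζ‖)).prod with hP
  have hPe : ∀ ρ : ℝ, P.eval ρ = ‖T.leadingCoeff‖ * (T.roots.map (fun t => (ρ - ‖t - ζ‖))).prod := by
    intro ρ
    rw [hP, eval_mul, eval_C]
    congr 1
    generalize T.roots = s
    induction s using Multiset.induction_on with
    | empty => simp
    | cons a s ih => simp [ih]
  have hle : ∀ (x : ℂ) (s : Multiset ℂ), |(s.map (fun t => (‖x - ζ‖ - ‖t - ζ‖))).prod| ≤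
      (s.map (fun t => ‖x - t‖)).prod := by
    intro x s
    induction s using Multiset.induction_on with
    | empty => simp
    | cons a s ih =>
      simp only [Multiset.map_cons, Multiset.prod_cons, abs_mul]
      refine mul_le_mul ?_ ih (abs_nonneg _) (norm_nonneg _)
      have := abs_norm_sub_norm_le (x - ζ) (a - ζ)
      simpa using this
  have hbd : ∀ ρ ∈ Set.Ioo a b, |P.eval ρ| ≤ 1 := by
    intro ρ hρ
    obtain ⟨x, hx, hx1⟩ := h ρ hρ
    rw [hPe, abs_mul, abs_of_nonneg (norm_nonneg _)]
    refine le_trans ?_ hx1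
    rw [a2_norm_eval]
    refine mul_le_mul_of_nonneg_left ?_ (norm_nonneg _)
    rw [← hx]
    exact hle x _
  have hba : 0 < (b - a) / 2 := by linarith
  set L : ℝ[X] := C ((b - a) / 2) * X + C ((a + b) / 2) with hL
  have hLd : L.natDegree = 1 := natDegree_linear hba.ne'
  have hLl : L.leadingCoeff = (b - a) / 2 := leadingCoeff_linear hba.ne'
  set Q : ℝ[X] := P.comp L with hQ
  have hprodmonic : ((T.roots.map (fun t => (X - C ‖t - ζ‖ : ℝ[X]))).prod).Monic :=
    monic_multiset_prod_of_monic _ _ (fun t _ => monic_X_sub_C _)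
  have hprodd : ((T.roots.map (fun t => (X - C ‖t - ζ‖ : ℝ[X]))).prod).natDegree = T.natDegree := by
    rw [← hN, natDegree_multiset_prod_of_monic]
    · rw [Multiset.map_map]
      simp
    · intro p hp
      obtain ⟨t, _, rfl⟩ := Multiset.mem_map.mp hp
      exact monic_X_sub_C _
  have hPl : P.coeff T.natDegree = ‖T.leadingCoeff‖ := by
    rw [hP, coeff_C_mul, ← hprodd, hprodmonic.coeff_natDegree, mul_one]
  have hPd : P.natDegree ≤ T.natDegree := by
    refine le_trans (natDegree_C_mul_le _ _) ?_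
    rw [hprodd]
  have hQd : Q.natDegree ≤ T.natDegree := by
    rw [hQ, natDegree_comp, hLd, mul_one]
    exact hPd
  have hQc : Q.coeff T.natDegree = ‖T.leadingCoeff‖ * ((b - a) / 2) ^ T.natDegree := by
    rcases eq_or_ne T 0 with rfl | hT
    · simp [hQ, hP]
    have hl : T.leadingCoeff ≠ 0 := leadingCoeff_ne_zero.mpr hT
    have hPd' : P.natDegree = T.natDegree := by
      rw [hP, natDegree_C_mul (by simpa using hl), hprodd]
    have hQd' : Q.natDegree = T.natDegree := by
      rw [hQ, natDegree_comp, hLd, mul_one, hPd']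
    rw [← hQd', coeff_natDegree, hQ, leadingCoeff_comp (by rw [hLd]; norm_num), hLl,
      ← coeff_natDegree, hPd', hPl, ← hQ, hQd']
  have hQb : ∀ x ∈ Set.Icc (-1 : ℝ) 1, |Q.eval x| ≤ 1 := by
    have hcl : IsClosed {x : ℝ | |Q.eval x| ≤ 1} :=
      isClosed_le (Q.continuous.abs) continuous_const
    have hsub : Set.Ioo (-1 : ℝ) 1 ⊆ {x : ℝ | |Q.eval x| ≤ 1} := by
      intro x hx
      show |Q.eval x| ≤ 1
      rw [hQ, eval_comp]
      apply hbd
      simp only [hL, eval_add, eval_mul, eval_C, eval_X]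
      constructor
      · nlinarith [hx.1, hx.2]
      · nlinarith [hx.1, hx.2]
    have := hcl.closure_subset_iff.mpr hsub
    rw [closure_Ioo (by norm_num)] at this
    exact this
  have hcheb := Chebyshev.coeff_le_of_forall_abs_le_one (n := T.natDegree)
    (natDegree_le_iff_degree_le.mp hQd) hQb
  rw [hQc] at hcheb
  have h2 : (2 : ℝ) ^ (T.natDegree - 1) ≤ 2 ^ T.natDegree :=
    pow_le_pow_right₀ (by norm_num) (Nat.sub_le _ _)
  have h3 : ‖T.leadingCoeff‖ * ((b - a) / 4) ^ T.natDegree ≤ 1 := by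
    have e : ((b - a) / 4) ^ T.natDegree = ((b - a) / 2) ^ T.natDegree / 2 ^ T.natDegree := by
      rw [← div_pow]; congr 1; ring
    rw [e, mul_div_assoc', div_le_one (by positivity)]
    exact le_trans hcheb h2
  refine le_trans ?_ h3
  refine mul_le_mul_of_nonneg_left ?_ (norm_nonneg _)
  refine pow_le_pow_left₀ (by linarith) (by linarith) _

end BHT
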