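import Pool.Agent.Helper27_BHT.Stmts

open Polynomial NumberField IsDedekindDomain WithZeroMulInt
open scoped NNReal WithZero

namespace BHT

theorem ev_toNNReal {b n : ℝ≥0} (hb : b ≠ 0) (hn : n ≠ 0) {e : ℕ} (he : e ≠ 0) (h : b ^ e = n)
    (x : ℤᵐ⁰) : toNNReal hb (x ^ e) = toNNReal hn x := by
  rcases eq_or_ne x 0 with rfl | hx
  · rw [zero_pow he, map_zero, map_zero]
  · rw [map_pow, toNNReal_neg_apply hb hx, toNNReal_neg_apply hn hx, ← h, ← zpow_natCast,
      ← zpow_natCast, ← zpow_mul, ← zpow_mul, mul_comm]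

theorem ev : EVStmt := by
  intro K E _ _ _ _ _ v
  set p : HeightOneSpectrum (𝓞 K) := v.maximalIdeal with hp
  obtain ⟨P, hPmax, hPover⟩ :=
    Ideal.exists_maximal_ideal_liesOver_of_isIntegral p.asIdeal (S := 𝓞 E)
  have hPne : P ≠ ⊥ := Ideal.ne_bot_of_liesOver_of_ne_bot p.ne_bot P
  set w : HeightOneSpectrum (𝓞 E) := ⟨P, hPmax.isPrime, hPne⟩ with hw
  haveI : w.asIdeal.LiesOver p.asIdeal := hPover
  set e := p.asIdeal.ramificationIdx' w.asIdeal with he
  have he0 : e ≠ 0 := Ideal.IsDedekindDomain.ramificationIdx'_ne_zero_of_liesOver w.asIdeal p.ne_bot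
  set n : ℝ≥0 := (Ideal.absNorm p.asIdeal : ℝ≥0) with hn
  have hn1 : 1 < n := NumberField.HeightOneSpectrum.one_lt_absNorm_nnreal p
  set b : ℝ≥0 := n ^ ((e : ℝ)⁻¹) with hb
  have hb1 : 1 < b := NNReal.one_lt_rpow hn1 (by positivity)
  have hbe : b ^ e = n := NNReal.rpow_inv_natCast_pow n he0
  refine ⟨w.adicAbv hb1, w.isNonarchimedean_adicAbv hb1, ?_⟩
  intro x
  have h1 : v x = toNNReal (ne_zero_of_lt hn1) (p.valuation K x) := by
    rw [← NumberField.FinitePlace.norm_embedding_eq v x,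
      NumberField.FinitePlace.norm_embedding']
  have h2 : w.adicAbv hb1 (algebraMap K E x) =
      toNNReal (ne_zero_of_lt hb1) (w.valuation E (algebraMap K E x)) := rfl
  rw [h1, h2, ← HeightOneSpectrum.valuation_liesOver E p w x]
  congr 1
  exact ev_toNNReal _ _ he0 hbe _

end BHT
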