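import Pool.Agent.Helper27_BHT.Stmts

open Polynomial

namespace BHT

/-- degrees and leading coefficients in a Pell equation -/
theorem gal_deg {F : Type*} [Field F] {f u w : Polynomial F} {c : F} {m N : ℕ} (hf : f.Monic)
    (hfd : f.natDegree = 2 * m) (hm : 1 ≤ m) (hw : w ≠ 0)
    (he : u ^ 2 - f * w ^ 2 = C c) (hu : u.natDegree = N) :
    N = m + w.natDegree ∧ u.leadingCoeff ^ 2 = w.leadingCoeff ^ 2 := by
  have h1 : (f * w ^ 2).natDegree = 2 * m + 2 * w.natDegree := by
    rw [hf.natDegree_mul' (pow_ne_zero _ hw), hfd, natDegree_pow]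
  have h2 : u ^ 2 = f * w ^ 2 + C c := by rw [← he]; ring
  have h3 : (u ^ 2).natDegree = 2 * m + 2 * w.natDegree := by
    rw [h2, natDegree_add_C, h1]
  have h4 : 2 * u.natDegree = 2 * m + 2 * w.natDegree := by rw [← h3, natDegree_pow]
  refine ⟨by omega, ?_⟩
  have h5 : (u ^ 2).leadingCoeff = (f * w ^ 2).leadingCoeff := by
    rw [leadingCoeff, leadingCoeff, h3, h1, h2, coeff_add, coeff_C, if_neg (by omega), add_zero]
  rw [leadingCoeff_pow, leadingCoeff_mul, hf.leadingCoeff, one_mul, leadingCoeff_pow] at h5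
  exact h5

theorem gal_unique {F : Type*} [Field F] [CharZero F] {f u w u' w' : Polynomial F} {c c' : F}
    {m : ℕ} (hf : f.Monic) (hfd : f.natDegree = 2 * m) (hm : 1 ≤ m)
    (hu : u.Monic) (hw : w.Monic) (hu' : u'.Monic) (hw' : w'.Monic) (hc : c ≠ 0) (hc' : c' ≠ 0)
    (he : u ^ 2 - f * w ^ 2 = C c) (he' : u' ^ 2 - f * w' ^ 2 = C c')
    (hd : u.natDegree = u'.natDegree) : u = u' ∧ w = w' := by
  obtain ⟨h1, -⟩ := gal_deg hf hfd hm hw.ne_zero he rfl
  obtain ⟨h1', -⟩ := gal_deg hf hfd hm hw'.ne_zero he' rfl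
  have hwd : w.natDegree = w'.natDegree := by omega
  have key : (u * w' - u' * w) * (u * w' + u' * w) = C c * w' ^ 2 - C c' * w ^ 2 := by
    rw [← he, ← he']; ring
  have h0 : u * w' - u' * w = 0 := by
    by_contra hne
    have hsum : (u * w' + u' * w).natDegree = u.natDegree + w'.natDegree := by
      have hA : (u * w').natDegree = u.natDegree + w'.natDegree := hu.natDegree_mul hw'
      have hB : (u' * w).natDegree = u.natDegree + w'.natDegree := by
        rw [hu'.natDegree_mul hw, hd, hwd]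
      apply le_antisymm
      · refine le_trans (natDegree_add_le _ _) ?_
        rw [hA, hB, max_self]
      · apply le_natDegree_of_ne_zero
        rw [coeff_add]
        have e1 : (u * w').coeff (u.natDegree + w'.natDegree) = 1 := by
          rw [← hA]; exact (hu.mul hw').coeff_natDegree
        have e2 : (u' * w).coeff (u.natDegree + w'.natDegree) = 1 := by
          rw [← hB]; exact (hu'.mul hw).coeff_natDegree
        rw [e1, e2]
        norm_num
    have hsne : u * w' + u' * w ≠ 0 := by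
      intro h
      rw [h, natDegree_zero] at hsum
      omega
    have hL : ((u * w' - u' * w) * (u * w' + u' * w)).natDegree ≥ u.natDegree + w'.natDegree := by
      rw [natDegree_mul hne hsne, hsum]
      omega
    have hR : (C c * w' ^ 2 - C c' * w ^ 2).natDegree ≤ 2 * w'.natDegree := by
      refine le_trans (natDegree_sub_le _ _) (max_le ?_ ?_)
      · refine le_trans (natDegree_C_mul_le _ _) ?_
        rw [natDegree_pow]
      · refine le_trans (natDegree_C_mul_le _ _) ?_
        rw [natDegree_pow, hwd]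
    rw [key] at hL
    omega
  rw [h0, zero_mul] at key
  have hcc : C c * w' ^ 2 = C c' * w ^ 2 := by
    have := key.symm
    exact sub_eq_zero.mp this
  have hlc := congrArg leadingCoeff hcc
  rw [leadingCoeff_mul, leadingCoeff_mul, leadingCoeff_C, leadingCoeff_C, (hw'.pow 2).leadingCoeff,
    (hw.pow 2).leadingCoeff, mul_one, mul_one] at hlc
  subst hlc
  have hww : w' ^ 2 = w ^ 2 := mul_left_cancel₀ (C_ne_zero.mpr hc) hcc
  have hw2 : w = w' := by
    rcases sq_eq_sq_iff_eq_or_eq_neg.mp hww with h | h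
    · exact h.symm
    · exfalso
      have := congrArg leadingCoeff h
      rw [leadingCoeff_neg, hw.leadingCoeff, hw'.leadingCoeff] at this
      norm_num at this
  refine ⟨?_, hw2⟩
  subst hw2
  have : u * w = u' * w := sub_eq_zero.mp h0
  exact mul_right_cancel₀ hw.ne_zero this

theorem gal : GalStmt := by
  intro K Ω _ _ _ _ φ m N f hf hfd hm _ halg ⟨u, w, c, hc, hw, he, hu⟩
  letI := φ.toAlgebra
  haveI : Algebra.IsAlgebraic K Ω := ⟨fun x => halg x⟩
  haveI : CharZero Ω := charZero_of_injective_algebraMap (algebraMap K Ω).injective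
  haveI : IsAlgClosure K Ω := ⟨inferInstance, inferInstance⟩
  haveI : IsGalois K Ω := by infer_instance
  have hFm : (f.map φ).Monic := hf.map φ
  have hFd : (f.map φ).natDegree = 2 * m := by rw [hf.natDegree_map, hfd]
  obtain ⟨hN, hlc⟩ := gal_deg hFm hFd hm hw he hu
  have hwl : w.leadingCoeff ≠ 0 := leadingCoeff_ne_zero.mpr hw
  have hu0 : u ≠ 0 := by
    rintro rfl
    rw [natDegree_zero] at hu
    omega
  have hul : u.leadingCoeff ≠ 0 := leadingCoeff_ne_zero.mpr hu0
  set u1 := C u.leadingCoeff⁻¹ * u with hu1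
  set w1 := C w.leadingCoeff⁻¹ * w with hw1
  set c1 := c * (u.leadingCoeff⁻¹) ^ 2 with hc1
  have hu1m : u1.Monic := by
    rw [Monic, hu1, leadingCoeff_mul, leadingCoeff_C, inv_mul_cancel₀ hul]
  have hw1m : w1.Monic := by
    rw [Monic, hw1, leadingCoeff_mul, leadingCoeff_C, inv_mul_cancel₀ hwl]
  have hu1d : u1.natDegree = N := by rw [hu1, natDegree_C_mul (inv_ne_zero hul), hu]
  have hinv : (w.leadingCoeff⁻¹) ^ 2 = (u.leadingCoeff⁻¹) ^ 2 := by
    rw [inv_pow, inv_pow, hlc]
  have he1 : u1 ^ 2 - f.map φ * w1 ^ 2 = C c1 := by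
    rw [hu1, hw1, hc1, mul_pow, mul_pow, ← C_pow, ← C_pow, hinv, C_mul, ← he]
    ring
  have hc1' : c1 ≠ 0 := mul_ne_zero hc (pow_ne_zero _ (inv_ne_zero hul))
  have hfix : ∀ σ : Ω ≃ₐ[K] Ω, u1.map (σ : Ω →+* Ω) = u1 ∧ w1.map (σ : Ω →+* Ω) = w1 := by
    intro σ
    have hσf : (f.map φ).map (σ : Ω →+* Ω) = f.map φ := by
      rw [Polynomial.map_map]
      congr 1
      ext x
      exact σ.commutes x
    have heσ := congrArg (Polynomial.map (σ : Ω →+* Ω)) he1
    rw [Polynomial.map_sub, Polynomial.map_mul, Polynomial.map_pow, Polynomial.map_pow, hσf,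
      map_C] at heσ
    have hσc : (σ : Ω →+* Ω) c1 ≠ 0 := (_root_.map_ne_zero _).mpr hc1'
    have := gal_unique hFm hFd hm (hu1m.map _) (hw1m.map _) hu1m hw1m hσc hc1' heσ he1
      (hu1m.natDegree_map _)
    exact this
  have hrange : ∀ p : Polynomial Ω, (∀ σ : Ω ≃ₐ[K] Ω, p.map (σ : Ω →+* Ω) = p) →
      ∃ q : Polynomial K, q.map φ = p := by
    intro p hp
    have : p ∈ Polynomial.lifts (algebraMap K Ω) := by
      rw [Polynomial.lifts_iff_coeff_lifts]
      intro n
      rw [InfiniteGalois.mem_range_algebraMap_iff_fixed]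
      intro σ
      have := congrArg (fun q => q.coeff n) (hp σ)
      simpa [coeff_map] using this
    obtain ⟨q, hq⟩ := (Polynomial.mem_lifts _).mp this
    exact ⟨q, hq⟩
  obtain ⟨u0, hu0'⟩ := hrange u1 (fun σ => (hfix σ).1)
  obtain ⟨w0, hw0'⟩ := hrange w1 (fun σ => (hfix σ).2)
  have hinj : Function.Injective (Polynomial.map φ) := Polynomial.map_injective φ φ.injective
  have hd0 : (u0 ^ 2 - f * w0 ^ 2).natDegree = 0 := by
    have : ((u0 ^ 2 - f * w0 ^ 2).map φ).natDegree = 0 := by
      rw [Polynomial.map_sub, Polynomial.map_mul, Polynomial.map_pow, Polynomial.map_pow, hu0',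
        hw0', he1, natDegree_C]
    rwa [natDegree_map] at this
  obtain ⟨c0, hc0⟩ : ∃ c0 : K, u0 ^ 2 - f * w0 ^ 2 = C c0 :=
    ⟨_, eq_C_of_natDegree_eq_zero hd0⟩
  refine ⟨u0, w0, c0, ?_, ?_, hc0, ?_⟩
  · rintro rfl
    have := congrArg (Polynomial.map φ) hc0
    rw [Polynomial.map_sub, Polynomial.map_mul, Polynomial.map_pow, Polynomial.map_pow, hu0',
      hw0', he1, map_C, map_zero, C_inj] at this
    exact hc1' this
  · rintro rfl
    rw [Polynomial.map_zero] at hw0'
    exact hw1m.ne_zero hw0'.symm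
  · rw [← natDegree_map φ, hu0', hu1d]

end BHT
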