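import Pool.Agent.Helper27_BHT.Stmts

open Polynomial NumberField

namespace BHT

theorem h2 (n1 : N1Stmt) (g2 : G2Stmt) : H2Stmt := by
  intro m hm
  obtain ⟨a, ha⟩ := g2 m hm
  refine ⟨a, ?_⟩
  intro E _ v hv h2 r u w c hr hrd hsp hc hw he j hj
  have hrdlt : r.degree < ((2 * m : ℕ) : WithBot ℕ) := by
    refine lt_of_le_of_lt degree_le_natDegree ?_
    exact_mod_cast (by omega : r.natDegree < 2 * m)
  have hmon : (X ^ (2 * m) + r).Monic := monic_X_pow_add hrdlt
  have hfne : X ^ (2 * m) + r ≠ 0 := hmon.ne_zero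
  set k := 2 * m - j with hk
  have hk0 : k ≠ 0 := by omega
  set A := v 2 ^ a * v (r.coeff j) with hA
  set L := v u.leadingCoeff with hL
  set N := u.natDegree with hN
  have hA0 : 0 ≤ A := mul_nonneg (pow_nonneg (v.nonneg _) _) (v.nonneg _)
  have hL0 : 0 ≤ L := v.nonneg _
  have hN0 : N ≠ 0 := by
    intro hN0
    have hu0 : u = C (u.coeff 0) := eq_C_of_natDegree_eq_zero hN0
    have h3 : (X ^ (2 * m) + r) * w ^ 2 = u ^ 2 - C c := by rw [← he]; ring
    have h4 : ((X ^ (2 * m) + r) * w ^ 2).natDegree = 2 * m + 2 * w.natDegree := by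
      rw [hmon.natDegree_mul' (pow_ne_zero _ hw), natDegree_pow]
      congr 1
      rw [natDegree_add_eq_left_of_natDegree_lt] <;> rw [natDegree_X_pow]
      omega
    rw [h3, hu0, ← C_pow, ← C_sub, natDegree_C] at h4
    omega
  have hmain : ∀ δ : ℝ, 0 < δ → δ ^ k < A → L ^ 2 * δ ^ (2 * N) ≤ v c := by
    intro δ hδ hδA
    obtain ⟨ζ, hζ⟩ := ha E v hv h2 r hr hrd hsp j hj δ hδ hδA
    exact n1 E v hv u (X ^ (2 * m) + r) w c hc (by rw [← he]; ring) hsp hfne ζ δ hδ hζ
  rcases hA0.eq_or_lt with h0 | hApos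
  · rw [← h0, zero_pow (by omega), zero_mul]
    exact pow_nonneg (v.nonneg _) _
  -- the limit
  set δ0 : ℝ := A ^ ((k : ℝ)⁻¹) with hδ0
  have hδ0pos : 0 < δ0 := Real.rpow_pos_of_pos hApos _
  have hδ0k : δ0 ^ k = A := Real.rpow_inv_natCast_pow hA0 hk0
  have hlim : L ^ 2 * δ0 ^ (2 * N) ≤ v c := by
    have hcl : IsClosed {δ : ℝ | L ^ 2 * δ ^ (2 * N) ≤ v c} :=
      isClosed_le (by fun_prop) continuous_const
    have hsub : Set.Ioo 0 δ0 ⊆ {δ : ℝ | L ^ 2 * δ ^ (2 * N) ≤ v c} := by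
      intro δ hδ
      refine hmain δ hδ.1 ?_
      rw [← hδ0k]
      exact pow_lt_pow_left₀ hδ.2 hδ.1.le hk0
    have h5 := hcl.closure_subset_iff.mpr hsub
    rw [closure_Ioo hδ0pos.ne] at h5
    exact h5 ⟨hδ0pos.le, le_refl _⟩
  have h6 : (L ^ 2 * δ0 ^ (2 * N)) ^ k ≤ (v c) ^ k :=
    pow_le_pow_left₀ (mul_nonneg (pow_nonneg hL0 _) (pow_nonneg hδ0pos.le _)) hlim k
  refine le_trans (le_of_eq ?_) h6
  rw [← hδ0k, mul_pow, ← pow_mul, ← pow_mul, ← pow_mul]
  rw [mul_comm, mul_comm k (2 * N)]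

theorem h2k (h2 : H2Stmt) (ev : EVStmt) : H2KStmt := by
  intro m hm
  obtain ⟨a, ha⟩ := h2 m hm
  refine ⟨a, ?_⟩
  intro K _ _ v r u w c hr hrd hc hw he j hj
  let f : K[X] := X ^ (2 * m) + r
  let E := f.SplittingField
  haveI : CharZero E := charZero_of_injective_algebraMap (algebraMap K E).injective
  haveI : NumberField E := NumberField.of_module_finite K E
  obtain ⟨v', hv', hvv⟩ := ev K E v
  have hinj : Function.Injective (algebraMap K E) := (algebraMap K E).injective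
  have key := ha E v' hv' (by norm_num) (r.map (algebraMap K E)) (u.map (algebraMap K E))
    (w.map (algebraMap K E)) (algebraMap K E c)
    ((Polynomial.map_ne_zero_iff hinj).mpr hr) (by rw [natDegree_map]; exact hrd)
    (by
      have := SplittingField.splits f
      simpa [f] using this)
    ((_root_.map_ne_zero _).mpr hc) ((Polynomial.map_ne_zero_iff hinj).mpr hw)
    (by
      have := congrArg (Polynomial.map (algebraMap K E)) he
      simpa using this) j hj
  rw [coeff_map, hvv, natDegree_map, leadingCoeff_map, hvv, hvv] at key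
  have h2' : v' 2 = v 2 := by
    have := hvv 2
    rwa [map_ofNat] at this
  rw [h2'] at key
  exact key

end BHT
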