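import Pool.Agent.Helper27_BHT.Stmts

open Polynomial

namespace BHT

theorem scl : SclStmt := by
  intro Ω _ m N r s t ht hr hs hrs ⟨u, w, c, hc, hw, he, hu⟩
  set L : Polynomial Ω := C t⁻¹ * X with hL
  have hti : t⁻¹ ≠ 0 := inv_ne_zero ht
  have hLd : L.natDegree = 1 := by
    rw [hL]; exact natDegree_C_mul_X _ hti
  have hkey : X ^ (2 * m) + s = C (t ^ (2 * m)) * (X ^ (2 * m) + r).comp L := by
    ext j
    have e1 : (X ^ (2 * m) + r).comp L = C (t⁻¹ ^ (2 * m)) * X ^ (2 * m) + r.comp L := by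
      rw [add_comp, pow_comp, X_comp, hL, mul_pow, ← C_pow]
    have e2 : (r.comp L).coeff j = r.coeff j * t⁻¹ ^ j := by
      rw [hL]; exact comp_C_mul_X_coeff
    rw [e1, mul_add, coeff_add, coeff_add, coeff_C_mul, coeff_C_mul, coeff_C_mul, e2]
    have e3 : t ^ (2 * m) * (t⁻¹ ^ (2 * m) * (X ^ (2 * m) : Polynomial Ω).coeff j) =
        (X ^ (2 * m) : Polynomial Ω).coeff j := by
      rw [← mul_assoc, ← mul_pow, mul_inv_cancel₀ ht, one_pow, one_mul]
    rw [e3]
    congr 1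
    rcases lt_or_ge j m with hj | hj
    · rw [hrs j hj]
      have : t ^ (2 * m) = t ^ (2 * m - j) * t ^ j := by
        rw [← pow_add]; congr 1; omega
      rw [this]
      have h2 : t ^ j * t⁻¹ ^ j = 1 := by rw [← mul_pow, mul_inv_cancel₀ ht, one_pow]
      linear_combination (-(t ^ (2 * m - j) * r.coeff j)) * h2
    · rw [coeff_eq_zero_of_natDegree_lt (lt_of_lt_of_le hs hj),
        coeff_eq_zero_of_natDegree_lt (lt_of_lt_of_le hr hj)]
      simp
  refine ⟨u.comp L, C (t⁻¹ ^ m) * w.comp L, c, hc, ?_, ?_, ?_⟩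
  · refine mul_ne_zero (C_ne_zero.mpr (pow_ne_zero _ hti)) ?_
    intro h0
    have := (comp_eq_zero_iff (p := w) (q := L)).mp h0
    rcases this with h | ⟨_, h⟩
    · exact hw h
    · have : L.natDegree = 0 := by rw [h]; exact natDegree_C _
      omega
  · have h1 := congrArg (fun p => p.comp L) he
    simp only [sub_comp, mul_comp, pow_comp, C_comp] at h1
    rw [hkey]
    have h3 : C (t ^ (2 * m)) * (C (t⁻¹ ^ m) * w.comp L) ^ 2 = (w.comp L) ^ 2 := by
      rw [mul_pow, ← mul_assoc, ← C_pow, ← C_mul]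
      have : t ^ (2 * m) * (t⁻¹ ^ m) ^ 2 = 1 := by
        rw [← pow_mul, mul_comm m 2, ← mul_pow, mul_inv_cancel₀ ht, one_pow]
      rw [this, C_1, one_mul]
    rw [← h1]
    linear_combination (-((X ^ (2 * m) + r).comp L)) * h3
  · rw [natDegree_comp, hLd, mul_one, hu]

end BHT
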